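import Pool.Agent.helper41.HFE.Spec

/-!
# Row `hfe:SWZ` (MP_3221a1_ag, project HFE): exchange of the variables
-/

set_option autoImplicit false

open Polynomial Module Pool.Agent.HFN

namespace Pool.Agent.HFE

noncomputable section

/-- filters of the image under the exchange -/
theorem SWZ_card (Z : Finset (ℂ × ℂ)) (p q : ℂ × ℂ → Prop) [DecidablePred p] [DecidablePred q] [DecidableEq (ℂ × ℂ)]
    (h : ∀ z, p z.swap ↔ q z) : ((Z.image Prod.swap).filter p).card = (Z.filter q).card := by
  rw [Finset.filter_image, Finset.card_image_of_injective _ Prod.swap_injective]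
  congr 1
  exact Finset.filter_congr fun z _ => h z

theorem SWZ : SWZ_stmt := by
  classical
  intro Z
  refine ⟨Finset.card_image_of_injective _ Prod.swap_injective, fun f => ?_, fun i => ?_⟩
  · unfold La nn sg
    rw [SWZ_card Z (fun z => ev z (sw f) = 0) (fun z => ev z f = 0) (fun z => by rw [ev_sw, Prod.swap_swap]),
      SWZ_card Z (fun z => Db z (sw f)) (fun z => Db z f) (fun z => by rw [Db_sw, Prod.swap_swap])]
  · have h1 : ∀ y : ℂ, mr (Z.image Prod.swap) y = nc Z y := by
      intro y
      unfold mr nc
      exact SWZ_card Z (fun z => z.2 = y) (fun z => z.1 = y) (fun z => by rw [Prod.snd_swap])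
    have h2 : (Z.image Prod.swap).image Prod.snd = Z.image Prod.fst := by
      rw [Finset.image_image]
      rfl
    unfold Aa Bb
    rw [h2]
    exact Finset.sum_congr rfl fun y _ => by rw [h1]

end

end Pool.Agent.HFE
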